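import Pool.Agent.Y844.CFN.Inf5
import Pool.Agent.Y844.CFN.Uniq

/-!
Functions of finitely or countably many variables acting on characteristic functions (stronger
form of `TwoVariable`).

Let `J` be a finite or countably infinite index set (`J = {1, 2}` is the case of the problem), and
let `E ≠ 0` be a finite-dimensional real inner product space (for example `E = ℝ`). A function `F`
on the product `𝔻^J` of closed unit discs (no regularity assumed) acts on the characteristic
functions on `E` if and only if it is a power series in `z_j` and `conj z_j` (`j ∈ J`) with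
finitely supported exponents and nonnegative coefficients of sum one, and these coefficients are
unique. In particular such an `F` is automatically continuous for the product topology. It is enough to assume that `F((φ_j))` is a
characteristic function for the characteristic functions `φ_j` of *finitely supported*
probability measures (trigonometric polynomials).

Outline for infinite `J`. Put `q(S) = F(1 on S, 0 off S)` for finite `S ⊆ J`.
* `|F(1 on S, w off S) - 1|² ≤ 8 |q(S) - 1|` for all `w` (use `φ(1) = w_j`, `φ(1/2) = 0`).
* `q(S) → 1`: with products of cosines `φ_j` one finds `ξ_N → 0` such that `φ_j(ξ_N) = 0` for late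
  `j` while the early coordinates do not matter; then continuity of `F((φ_j))` at `0` is used.
* Hence `F(z)` is a uniform limit of functions of finitely many variables if `sup |z_j| < 1`, and
  no mass of the coefficients escapes to late coordinates.
* The boundary is reached along characteristic functions with `sup_j |φ_j(ξ)| < 1` on `(0, 1)`.
-/

namespace Pool.Agent.Results.MP_23fb81_pr.CountablyManyVariables

open MeasureTheory
open scoped ComplexConjugate

noncomputable section

/-- The closed unit disc of the complex plane. -/
abbrev Disc : Type := Metric.closedBall (0 : ℂ) 1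

/-- The value `φ(ξ) = ∫ e^{i⟨t,ξ⟩} dμ(t)` of the characteristic function of the probability measure
`μ` on the real inner product space `E`, as a point of the closed unit disc. For `E = ℝ` this is
`∫ e^{iξt} dμ(t)`. -/
def cf {E : Type} [NormedAddCommGroup E] [InnerProductSpace ℝ E] [MeasurableSpace E]
    (μ : Measure E) [IsProbabilityMeasure μ] (ξ : E) : Disc :=
  ⟨charFun μ ξ, by simpa using norm_charFun_le_one (μ := μ) ξ⟩

/-- `F` is admissible on `E`: for every family `(φ_j)` of characteristic functions (of Borel
probability measures `μ_j` on `E`) the function `ξ ↦ F ((φ_j ξ)_j)` is again a characteristic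
function (of a Borel probability measure `ρ` on `E`). -/
def Admissible (E : Type) [NormedAddCommGroup E] [InnerProductSpace ℝ E] [MeasurableSpace E]
    {J : Type} (F : (J → Disc) → ℂ) : Prop :=
  ∀ (μ : J → Measure E) [∀ j, IsProbabilityMeasure (μ j)],
    ∃ ρ : Measure E, IsProbabilityMeasure ρ ∧ ∀ ξ : E, charFun ρ ξ = F (fun j => cf (μ j) ξ)

/-- `F` is weakly admissible on `E`: the same is assumed only for families `(φ_j)` of
characteristic functions of finitely supported probability measures `μ_j` on `E`. -/
def WeaklyAdmissible (E : Type) [NormedAddCommGroup E] [InnerProductSpace ℝ E] [MeasurableSpace E]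
    {J : Type} (F : (J → Disc) → ℂ) : Prop :=
  ∀ (μ : J → Measure E) [∀ j, IsProbabilityMeasure (μ j)],
    (∀ j, ∃ s : Finset E, μ j (s : Set E)ᶜ = 0) →
    ∃ ρ : Measure E, IsProbabilityMeasure ρ ∧ ∀ ξ : E, charFun ρ ξ = F (fun j => cf (μ j) ξ)

/-- `a` is an expansion of `F`: the coefficients `a p` are nonnegative with sum `1`, where `p` runs
over the finitely supported functions from `J` to the pairs of natural numbers, and
`F(z) = ∑_p a_p ∏_{j ∈ supp p} z_j^{p_j.1} (conj z_j)^{p_j.2}` for all `z`. -/
def IsExpansion {J : Type} (a : (J →₀ ℕ × ℕ) → ℝ) (F : (J → Disc) → ℂ) : Prop :=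
  (∀ p, 0 ≤ a p) ∧ HasSum a 1 ∧
    ∀ z : J → Disc, HasSum (fun p : J →₀ ℕ × ℕ =>
      (a p : ℂ) * p.prod fun j q => (z j : ℂ) ^ q.1 * conj (z j : ℂ) ^ q.2) (F z)

/-- **The admissible functions of finitely or countably many variables.** No regularity of `F` is
assumed. Let `J` be a finite or countably infinite index set and let `E ≠ 0` be a
finite-dimensional real inner product space with its Borel σ-algebra, for example `E = ℝ`. For a
function `F` on the product of the closed unit discs over `J` the following are equivalent: `F` is
admissible on `E`; `F` is weakly admissible on `E`; `F` has an expansion, that is, it is given by a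
power series in `z_j` and `conj z_j` with finitely supported exponents and nonnegative coefficients
of sum `1`; `F` has exactly one expansion. -/
theorem result (J : Type) [Countable J] (F : (J → Disc) → ℂ)
    (E : Type) [NormedAddCommGroup E] [InnerProductSpace ℝ E] [FiniteDimensional ℝ E]
    [Nontrivial E] [MeasurableSpace E] [BorelSpace E] :
    List.TFAE [Admissible E F, WeaklyAdmissible E F,
      ∃ a : (J →₀ ℕ × ℕ) → ℝ, IsExpansion a F,
      ∃! a : (J →₀ ℕ × ℕ) → ℝ, IsExpansion a F] := by
  classical
  obtain ⟨e, he⟩ := exists_injective_nat J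
  set G : (J → ℂ) → ℂ := fun x =>
    if h : ∀ j, ‖x j‖ ≤ 1 then F (fun j => ⟨x j, by simpa using h j⟩) else 0 with hG
  have hGF : ∀ x : J → Disc, G (fun j => (x j : ℂ)) = F x := by
    intro x
    have hx : ∀ j, ‖(x j : ℂ)‖ ≤ 1 := fun j => mem_closedBall_zero_iff.1 (x j).2
    rw [hG]
    simp only
    rw [dif_pos hx]
  tfae_have 1 → 2 := fun h μ _ _ => h μ
  tfae_have 2 → 3 := by
    intro h
    have hadm : Y844.CFN.AdmI G := by
      apply Y844.CFN.adm_of_spaceI (E := E)
      intro μ hμ hs
      obtain ⟨ρ, hρ, hρ'⟩ := h μ hs
      refine ⟨ρ, hρ, fun ξ => ?_⟩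
      rw [hρ', ← hGF]
      rfl
    obtain ⟨a, ha0, ha1, ha⟩ := Y844.CFN.forwardI hadm e he
    refine ⟨a, ha0, ha1, fun z => ?_⟩
    rw [← hGF]
    exact ha (fun j => (z j : ℂ)) (fun j => mem_closedBall_zero_iff.1 (z j).2)
  tfae_have 3 → 1 := by
    rintro ⟨a, ha0, ha1, ha⟩ μ hμ
    obtain ⟨ρ, hρ, hρ'⟩ := Y844.CFN.converseI ha0 ha1 μ hμ
    refine ⟨ρ, hρ, fun ξ => ?_⟩
    exact (hρ' ξ).unique (ha (fun j => cf (μ j) ξ))
  tfae_have 4 → 3 := fun ⟨a, ha, _⟩ => ⟨a, ha⟩
  tfae_have 3 → 4 := by
    rintro ⟨a, ha⟩
    refine ⟨a, ha, fun b hb => ?_⟩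
    have hna : Summable fun p => ‖a p‖ := by
      simp_rw [Real.norm_of_nonneg (ha.1 _)]; exact ha.2.1.summable
    have hnb : Summable fun p => ‖b p‖ := by
      simp_rw [Real.norm_of_nonneg (hb.1 _)]; exact hb.2.1.summable
    apply Y844.CFN.uniq b a hnb hna
    intro z hz
    have h1 := ha.2.2 (fun j => ⟨z j, by simpa using hz j⟩)
    have h2 := hb.2.2 (fun j => ⟨z j, by simpa using hz j⟩)
    exact h2.tsum_eq.trans h1.tsum_eq.symm
  tfae_finish

end

end Pool.Agent.Results.MP_23fb81_pr.CountablyManyVariables
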